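import Mathlib

set_option autoImplicit false

namespace Pool.Agent.H494Z.Beta

/-- The subgroup of `Aut S` generated by the inner automorphisms and `x`. -/
def innAnd {S : Type} [Group S] (x : MulAut S) : Subgroup (MulAut S) :=
  Subgroup.closure (Set.range (fun s : S => MulAut.conj s) ∪ {x})

/-- The set of all `m ≥ 1` such that some `m` conjugates of `x` in `⟨Inn S, x⟩` generate a subgroup
whose order is divisible by `r`. -/
def betaSet {S : Type} [Group S] (r : ℕ) (x : MulAut S) : Set ℕ :=
  {m | 1 ≤ m ∧ ∃ g : Fin m → MulAut S, (∀ i, g i ∈ innAnd x) ∧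
    r ∣ Nat.card (Subgroup.closure (Set.range (fun i => g i * x * (g i)⁻¹)))}

/-- `b(3) = 3` and `b(r) = r - 1` otherwise. -/
def bound (r : ℕ) : ℕ := if r = 3 then 3 else r - 1

end Pool.Agent.H494Z.Beta
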