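import Mathlib
import Pool.Agent.H494Z.PSLn
import Pool.Agent.H494Z.BetaDefs

set_option autoImplicit false

namespace Pool.Agent.H494Z.Beta

open Matrix

instance : Fact (Nat.Prime 3) := ⟨by norm_num⟩

abbrev F : Type := ZMod 3
abbrev SL4 : Type := Matrix.SpecialLinearGroup (Fin 4) F
abbrev S : Type := Matrix.ProjectiveSpecialLinearGroup (Fin 4) F

noncomputable def pr : SL4 →* MulAut S :=
  (MulAut.conj : S →* MulAut S).comp (QuotientGroup.mk' (Subgroup.center SL4))

def t : SL4 := ⟨!![1, 1, 0, 0; 0, 1, 0, 0; 0, 0, 1, 0; 0, 0, 0, 1], by decide +kernel⟩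
def t1 : SL4 := ⟨!![1, 0, 0, 0; 2, 1, 1, 0; 0, 0, 1, 0; 0, 0, 0, 1], by decide +kernel⟩
def t2 : SL4 := ⟨!![1, 0, 0, 0; 0, 1, 0, 0; 0, 2, 1, 1; 0, 0, 0, 1], by decide +kernel⟩
def t3 : SL4 := ⟨!![1, 0, 0, 0; 0, 1, 0, 0; 0, 0, 1, 0; 0, 0, 2, 1], by decide +kernel⟩
def g1 : SL4 := ⟨!![0, 2, 0, 2; 1, 0, 0, 0; 0, 0, 0, 2; 0, 0, 1, 0], by decide +kernel⟩
def g2 : SL4 := ⟨!![0, 0, 0, 2; 0, 2, 1, 0; 1, 0, 0, 0; 0, 0, 1, 0], by decide +kernel⟩
def g3 : SL4 := ⟨!![0, 0, 2, 0; 0, 0, 0, 2; 0, 2, 0, 0; 1, 0, 0, 0], by decide +kernel⟩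
def h : SL4 := ⟨!![0, 0, 2, 1; 0, 0, 2, 0; 1, 0, 2, 0; 0, 1, 2, 0], by decide +kernel⟩

lemma conj1 : g1 * t * g1⁻¹ = t1 := by
  rw [mul_inv_eq_iff_eq_mul]; apply Subtype.ext
  decide +kernel
lemma conj2 : g2 * t * g2⁻¹ = t2 := by
  rw [mul_inv_eq_iff_eq_mul]; apply Subtype.ext
  decide +kernel
lemma conj3 : g3 * t * g3⁻¹ = t3 := by
  rw [mul_inv_eq_iff_eq_mul]; apply Subtype.ext
  decide +kernel
lemma h_eq : h = (t * t1 * t2 * t3) * (t * t1 * t2 * t3) := by
  apply Subtype.ext
  decide +kernel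
lemma h_pow : h ^ 5 = 1 := by
  have : h ^ 5 = h * h * h * h * h := by simp only [pow_succ, pow_zero, one_mul]
  rw [this]
  apply Subtype.ext
  decide +kernel
lemma t_pow : t ^ 3 = 1 := by
  have : t ^ 3 = t * t * t := by simp only [pow_succ, pow_zero, one_mul]
  rw [this]
  apply Subtype.ext
  decide +kernel
lemma h_ncomm : h * t ≠ t * h := by
  intro hh
  have : (h * t).1 = (t * h).1 := by rw [hh]
  revert this
  decide +kernel

lemma simple : IsSimpleGroup S := PSLn.psl_simple (by simp)

lemma center_bot : Subgroup.center S = ⊥ := by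
  have := simple
  rcases (inferInstance : (Subgroup.center S).Normal).eq_bot_or_eq_top with h1 | h1
  · exact h1
  · exfalso
    have hp : commutator S = ⊤ := PSLn.psl_perfect (by simp)
    have : commutator S = ⊥ := (commutator_eq_bot_iff_center_eq_top S).2 h1
    rw [hp] at this
    exact top_ne_bot this

lemma pr_eq_one {a : SL4} (ha : pr a = 1) : a ∈ Subgroup.center SL4 := by
  have h1 : (QuotientGroup.mk a : S) ∈ Subgroup.center S := by
    rw [Subgroup.mem_center_iff]
    intro g
    have : MulAut.conj (QuotientGroup.mk a : S) g = g := by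
      have h2 : pr a g = g := by rw [ha]; rfl
      exact h2
    rw [MulAut.conj_apply, mul_inv_eq_iff_eq_mul] at this
    exact this.symm
  rw [center_bot, Subgroup.mem_bot, QuotientGroup.eq_one_iff] at h1
  exact h1

lemma pr_h : orderOf (pr h) = 5 := by
  have : Fact (Nat.Prime 5) := ⟨by norm_num⟩
  apply orderOf_eq_prime
  · rw [← map_pow, h_pow, map_one]
  · intro hh
    exact h_ncomm ((Subgroup.mem_center_iff.1 (pr_eq_one hh)) t).symm

lemma pr_t : orderOf (pr t) = 3 := by
  apply orderOf_eq_prime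
  · rw [← map_pow, t_pow, map_one]
  · intro hh
    exact h_ncomm ((Subgroup.mem_center_iff.1 (pr_eq_one hh)) h)

lemma innAnd_eq : innAnd (pr t) = pr.range := by
  apply le_antisymm
  · unfold innAnd
    rw [Subgroup.closure_le]
    rintro x (⟨s, rfl⟩ | rfl)
    · obtain ⟨a, rfl⟩ := QuotientGroup.mk_surjective s
      exact ⟨a, rfl⟩
    · exact ⟨t, rfl⟩
  · rintro x ⟨a, rfl⟩
    exact Subgroup.subset_closure (Or.inl ⟨QuotientGroup.mk a, rfl⟩)

lemma t_fix (w : Fin 4 → F) (hw : w 1 = 0) : t • w = w := by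
  show t.1 *ᵥ w = w
  ext i
  fin_cases i <;> simp [t, Matrix.mulVec, dotProduct, Fin.sum_univ_four, hw]

lemma exists_fix {m : ℕ} (hm : m < 4) (s : Fin m → SL4) :
    ∃ w : Fin 4 → F, w ≠ 0 ∧ ∀ i, (s i * t * (s i)⁻¹) • w = w := by
  let f : (Fin 4 → F) →ₗ[F] (Fin m → F) :=
    LinearMap.pi (fun i => (LinearMap.proj 1).comp (Matrix.toLin' ((s i)⁻¹).1))
  have hk : LinearMap.ker f ≠ ⊥ := LinearMap.ker_ne_bot_of_finrank_lt (by simpa using hm)
  obtain ⟨w, hw, hw0⟩ := (Submodule.ne_bot_iff _).1 hk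
  refine ⟨w, hw0, fun i => ?_⟩
  have h1 : ((s i)⁻¹ • w) 1 = 0 := congrFun (LinearMap.mem_ker.1 hw) i
  rw [mul_smul, mul_smul, t_fix _ h1, smul_inv_smul]

lemma no_five (a : SL4) (ha : orderOf a = 5) (w : Fin 4 → F) (hw : w ≠ 0) (hfix : a • w = w) :
    False := by
  classical
  have : Fact (Nat.Prime 5) := ⟨by norm_num⟩
  let f : Function.End (Fin 4 → F) := fun v => a • v
  have hf : f ^ 5 ^ 1 = 1 := by
    have h5 : a ^ 5 = 1 := by rw [← ha]; exact pow_orderOf_eq_one a
    have : ∀ n : ℕ, ∀ v, (f ^ n) v = (a ^ n) • v := by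
      intro n
      induction n with
      | zero => intro v; simp; rfl
      | succ n ih =>
        intro v
        rw [pow_succ, pow_succ, mul_smul]
        exact ih _
    funext v
    rw [pow_one, this, h5, one_smul]; rfl
  have hmod := Equiv.Perm.card_fixedPoints_modEq hf
  let K : Submodule F (Fin 4 → F) := LinearMap.ker (Matrix.toLin' a.1 - LinearMap.id)
  have hK : ∀ v, v ∈ K ↔ a • v = v := by
    intro v
    simp only [K, LinearMap.mem_ker, LinearMap.sub_apply, LinearMap.id_apply, sub_eq_zero]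
    rfl
  have hc : Fintype.card (Function.fixedPoints f) = 3 ^ Module.finrank F K := by
    rw [← Nat.card_eq_fintype_card]
    have h1 : Nat.card (Function.fixedPoints f) = Nat.card K := by
      apply Nat.card_congr
      exact Equiv.subtypeEquivRight (fun v => (hK v).symm)
    rw [h1, Module.natCard_eq_pow_finrank (K := F), Nat.card_zmod]
  have hle : Module.finrank F K ≤ 4 := by simpa using K.finrank_le
  have hne0 : Module.finrank F K ≠ 0 := by
    intro h0
    rw [Submodule.finrank_eq_zero] at h0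
    have : w ∈ K := (hK w).2 hfix
    rw [h0] at this
    exact hw this
  have hne4 : Module.finrank F K ≠ 4 := by
    intro h4
    have htop : K = ⊤ := Submodule.eq_top_of_finrank_eq (by simpa using h4)
    have ha1 : a = 1 := by
      apply Subtype.ext
      apply Matrix.toLin'.injective
      apply LinearMap.ext
      intro v
      have : a • v = v := (hK v).1 (htop ▸ Submodule.mem_top)
      show a • v = (1 : SL4) • v
      rw [one_smul]
      exact this
    rw [ha1, orderOf_one] at ha
    omega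
  have h81 : Fintype.card (Fin 4 → F) = 81 := by simp
  rw [hc, h81] at hmod
  generalize Module.finrank F K = k at *
  interval_cases k <;> simp_all [Nat.ModEq]

lemma beta_least : IsLeast (betaSet 5 (pr t)) 4 := by
  constructor
  · refine ⟨by norm_num, fun i => pr (![1, g1, g2, g3] i), fun i => ?_, ?_⟩
    · rw [innAnd_eq]; exact ⟨_, rfl⟩
    · rw [← pr_h]
      apply Subgroup.orderOf_dvd_natCard
      have key : ∀ i : Fin 4, pr (![1, g1, g2, g3] i * t * (![1, g1, g2, g3] i)⁻¹) ∈
          Subgroup.closure (Set.range (fun i : Fin 4 => pr (![1, g1, g2, g3] i) * pr t *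
            (pr (![1, g1, g2, g3] i))⁻¹)) := by
        intro i
        apply Subgroup.subset_closure
        exact ⟨i, by simp only [map_mul, map_inv]⟩
      have k0 := key 0
      have k1 := key 1
      have k2 := key 2
      have k3 := key 3
      simp only [Matrix.cons_val_zero, Matrix.cons_val_one, Matrix.cons_val, one_mul, inv_one,
        mul_one, conj1, conj2, conj3] at k0 k1 k2 k3
      rw [h_eq]
      simp only [map_mul]
      exact mul_mem (mul_mem (mul_mem (mul_mem k0 k1) k2) k3)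
        (mul_mem (mul_mem (mul_mem k0 k1) k2) k3)
  · rintro m ⟨-, g, hg, hdvd⟩
    by_contra hm
    push Not at hm
    rw [innAnd_eq] at hg
    choose s hs using hg
    obtain ⟨w, hw0, hw⟩ := exists_fix hm s
    have hmap : Subgroup.closure (Set.range (fun i => g i * pr t * (g i)⁻¹)) =
        (Subgroup.closure (Set.range (fun i => s i * t * (s i)⁻¹))).map pr := by
      rw [MonoidHom.map_closure, ← Set.range_comp]
      congr 2
      funext i
      simp only [Function.comp, map_mul, map_inv, hs]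
    rw [hmap] at hdvd
    have h5 := hdvd.trans (Subgroup.card_map_dvd _ pr)
    have : Fact (Nat.Prime 5) := ⟨by norm_num⟩
    obtain ⟨a, ha⟩ := exists_prime_orderOf_dvd_card' 5 h5
    have hst : Subgroup.closure (Set.range (fun i => s i * t * (s i)⁻¹)) ≤
        MulAction.stabilizer SL4 w := by
      rw [Subgroup.closure_le]
      rintro x ⟨i, rfl⟩
      exact hw i
    exact no_five a.1 (by rw [Subgroup.orderOf_coe]; exact ha) w hw0 (hst a.2)

theorem main : ∃ (S : Type) (_ : Group S) (_ : Finite S), IsSimpleGroup S ∧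
    (∃ a b : S, a * b ≠ b * a) ∧ ∃ (r : ℕ) (x : MulAut S), r.Prime ∧ Odd r ∧ r ∣ Nat.card S ∧
      2 < orderOf x ∧ IsLeast (betaSet r x) (bound r) := by
  refine ⟨S, inferInstance, inferInstance, simple, ?_, 5, pr t, by norm_num, by decide, ?_, ?_,
    beta_least⟩
  · by_contra hc
    push Not at hc
    have : Subgroup.center S = ⊤ := by
      rw [eq_top_iff]; intro a _; rw [Subgroup.mem_center_iff]; intro g; exact hc g a
    rw [center_bot] at this
    have h2 := simple.toNontrivial
    exact bot_ne_top this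
  · rw [← pr_h]
    exact (orderOf_map_dvd (MulAut.conj : S →* MulAut S) _).trans (orderOf_dvd_natCard _)
  · rw [pr_t]; norm_num

end Pool.Agent.H494Z.Beta
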