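import Mathlib

set_option autoImplicit false

namespace Pool.Agent.H494Z.Cover

variable {V : Type} [Fintype V] [DecidableEq V]

/-- `G` has more than three vertices and stays connected when fewer than three are deleted. -/
def ThreeConnected (G : SimpleGraph V) : Prop :=
  3 < Fintype.card V ∧ ∀ S : Finset V, S.card < 3 → (G.induce ((↑S : Set V)ᶜ)).Connected

/-- The lengths of the closed walks that traverse every edge at least once. -/
def postmanLengths (G : SimpleGraph V) : Set ℕ :=
  {n | ∃ (u : V) (p : G.Walk u u), (∀ e ∈ G.edgeSet, e ∈ p.edges) ∧ p.length = n}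

/-- The total lengths of the finite families of cycles that cover every edge. -/
def coverLengths (G : SimpleGraph V) : Set ℕ :=
  {n | ∃ F : List (Σ u : V, G.Walk u u), (∀ c ∈ F, c.2.IsCycle) ∧
    (∀ e ∈ G.edgeSet, ∃ c ∈ F, e ∈ c.2.edges) ∧ (F.map (fun c => c.2.length)).sum = n}

/-- The shortest postman tour and the shortest cycle cover exist and have the same length. -/
def SccEqCpp (G : SimpleGraph V) : Prop :=
  ∃ n : ℕ, IsLeast (postmanLengths G) n ∧ IsLeast (coverLengths G) n

/-- `w` takes the values 1 and 2 on the edges and every edge cut has even total weight. -/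
def IsEulerianWeight (G : SimpleGraph V) [DecidableRel G.Adj] (w : Sym2 V → ℕ) : Prop :=
  (∀ e ∈ G.edgeSet, w e = 1 ∨ w e = 2) ∧
    ∀ S : Finset V, Even (∑ x ∈ S, ∑ y ∈ Sᶜ, if G.Adj x y then w s(x, y) else 0)

/-- There is a finite family of cycles (repetitions allowed) in which every edge `e` lies in
exactly `w e` members. -/
def HasCycleCover (G : SimpleGraph V) (w : Sym2 V → ℕ) : Prop :=
  ∃ F : List (Σ u : V, G.Walk u u), (∀ c ∈ F, c.2.IsCycle) ∧
    ∀ e ∈ G.edgeSet, F.countP (fun c => decide (e ∈ c.2.edges)) = w e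

/-- The cycle cover property. -/
def CycleCoverProperty (G : SimpleGraph V) [DecidableRel G.Adj] : Prop :=
  ∀ w : Sym2 V → ℕ, IsEulerianWeight G w → HasCycleCover G w

end Pool.Agent.H494Z.Cover
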