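import Mathlib

set_option autoImplicit false

namespace Pool.Agent.H494Z.Erdos

open Topology Filter Metric

/-- Every homomorphism from a complete normed group to the integers is continuous. -/
theorem dudley {G : Type} [NormedAddCommGroup G] [CompleteSpace G] (φ : G →+ ℤ) :
    Continuous φ := by
  by_contra hcon
  have hpick : ∀ δ : ℝ, 0 < δ → ∃ x : G, ‖x‖ < δ ∧ φ x ≠ 0 := by
    intro δ hδ
    by_contra h
    push Not at h
    apply hcon
    apply continuous_of_continuousAt_zero φ
    rw [ContinuousAt, map_zero, nhds_discrete ℤ, Filter.tendsto_pure]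
    filter_upwards [Metric.ball_mem_nhds (0 : G) hδ] with x hx
    exact h x (by simpa using hx)
  choose! pick hp1 hp2 using hpick
  obtain ⟨M, hM0, hM'⟩ : ∃ M : ℕ → ℕ, M 0 = 1 ∧ ∀ k : ℕ, M (k + 1) =
      M k * ((φ (pick ((1 / 2 : ℝ) ^ k / ((M k : ℕ) : ℝ)))).natAbs + 2) :=
    ⟨fun n => Nat.rec (motive := fun _ => ℕ) 1
      (fun k Mk => Mk * ((φ (pick ((1 / 2 : ℝ) ^ k / ((Mk : ℕ) : ℝ)))).natAbs + 2)) n, rfl,
      fun _ => rfl⟩
  let x : ℕ → G := fun k => pick ((1 / 2 : ℝ) ^ k / ((M k : ℕ) : ℝ))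
  let m : ℕ → ℕ := fun k => (φ (x k)).natAbs + 2
  have hM : ∀ k, M (k + 1) = M k * m k := hM'
  have hMpos : ∀ k, 0 < M k := by
    intro k
    induction k with
    | zero => omega
    | succ k ih => rw [hM]; exact Nat.mul_pos ih (by simp [m])
  have hδ : ∀ k, (0 : ℝ) < (1 / 2 : ℝ) ^ k / ((M k : ℕ) : ℝ) := fun k =>
    div_pos (by positivity) (by exact_mod_cast hMpos k)
  have hx1 : ∀ k, ((M k : ℕ) : ℝ) * ‖x k‖ ≤ (1 / 2 : ℝ) ^ k := by
    intro k
    have := hp1 _ (hδ k)
    rw [lt_div_iff₀ (by exact_mod_cast hMpos k)] at this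
    simp only [x]; linarith
  have hx2 : ∀ k, φ (x k) ≠ 0 := fun k => hp2 _ (hδ k)
  let P : ℕ → ℕ → ℕ := fun n k => ∏ i ∈ Finset.range k, m (n + i)
  have hP : ∀ n k, M (n + k) = M n * P n k := by
    intro n k
    induction k with
    | zero => simp [P]
    | succ k ih =>
      rw [← add_assoc, hM, ih]
      simp only [P]
      rw [Finset.prod_range_succ, mul_assoc]
  have hPle : ∀ n k, P n k ≤ M (n + k) := by
    intro n k
    rw [hP]
    exact Nat.le_mul_of_pos_left _ (hMpos n)
  have hsum : ∀ n, Summable (fun k => P n k • x (n + k)) := by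
    intro n
    refine Summable.of_norm_bounded (g := fun k => (1 / 2 : ℝ) ^ k) summable_geometric_two ?_
    intro k
    calc ‖P n k • x (n + k)‖ ≤ (P n k : ℝ) * ‖x (n + k)‖ := norm_nsmul_le
      _ ≤ (M (n + k) : ℝ) * ‖x (n + k)‖ := by
          gcongr; exact_mod_cast hPle n k
      _ ≤ (1 / 2 : ℝ) ^ (n + k) := hx1 _
      _ ≤ (1 / 2 : ℝ) ^ k := pow_le_pow_of_le_one (by norm_num) (by norm_num) (by omega)
  let y : ℕ → G := fun n => ∑' k, P n k • x (n + k)
  have hy : ∀ n, y n = x n + m n • y (n + 1) := by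
    intro n
    simp only [y]
    rw [(hsum n).tsum_eq_zero_add, ← (hsum (n + 1)).tsum_const_smul (m n)]
    congr 1
    · simp [P]
    · congr 1
      funext k
      simp only [P]
      rw [Finset.prod_range_succ', smul_smul, mul_comm, add_zero,
        show n + (k + 1) = n + 1 + k by omega]
      congr 2
      apply Finset.prod_congr rfl
      intro i _
      congr 1; omega
  have hφ : ∀ n, φ (y n) = φ (x n) + (m n : ℤ) * φ (y (n + 1)) := by
    intro n
    rw [hy n, map_add, map_nsmul, nsmul_eq_mul]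
  have hm : ∀ n, (m n : ℤ) = |φ (x n)| + 2 := by
    intro n; simp [m]
  have hne : ∀ n, φ (y n) ≠ 0 := by
    intro n h0
    have h1 := hφ n
    rw [h0, hm] at h1
    by_cases h2 : φ (y (n + 1)) = 0
    · rw [h2] at h1; exact hx2 n (by linarith)
    · have h3 : 1 ≤ |φ (y (n + 1))| := Int.one_le_abs h2
      have h4 : |φ (x n)| = (|φ (x n)| + 2) * |φ (y (n + 1))| := by
        have : φ (x n) = -((|φ (x n)| + 2) * φ (y (n + 1))) := by linarith
        conv_lhs => rw [this]
        rw [abs_neg, abs_mul, abs_of_nonneg (by positivity : (0 : ℤ) ≤ |φ (x n)| + 2)]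
      nlinarith [abs_nonneg (φ (x n))]
  have hdec : ∀ n, |φ (y (n + 1))| < |φ (y n)| := by
    intro n
    have h1 := hφ n
    rw [hm] at h1
    have h3 : 1 ≤ |φ (y (n + 1))| := Int.one_le_abs (hne _)
    have h5 : |(|φ (x n)| + 2) * φ (y (n + 1))| ≤ |φ (y n)| + |φ (x n)| := by
      have : (|φ (x n)| + 2) * φ (y (n + 1)) = φ (y n) - φ (x n) := by linarith
      rw [this]; exact abs_sub _ _
    rw [abs_mul, abs_of_nonneg (by positivity : (0 : ℤ) ≤ |φ (x n)| + 2)] at h5
    nlinarith [abs_nonneg (φ (x n))]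
  have hall : ∀ n : ℕ, |φ (y n)| + n ≤ |φ (y 0)| := by
    intro n
    induction n with
    | zero => simp
    | succ n ih => have := hdec n; push_cast; linarith
  have := hall (|φ (y 0)|.toNat + 1)
  have h2 := abs_nonneg (φ (y (|φ (y 0)|.toNat + 1)))
  have h3 : ((|φ (y 0)|.toNat : ℕ) : ℤ) = |φ (y 0)| := Int.toNat_of_nonneg (abs_nonneg _)
  push_cast at this
  linarith

/-- Baire category step. -/
theorem baire_cont {G H : Type} [NormedAddCommGroup G] [CompleteSpace G] [NormedAddCommGroup H]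
    {ι : Type} [Countable ι] (d : ι → H) (hd : ∀ y : H, ∀ ε > 0, ∃ i, ‖y - d i‖ ≤ ε)
    (f : G →+ H) (hf : ∀ (z : H) (r : ℝ), 0 ≤ r → IsClosed {x | ‖f x - z‖ ≤ r}) :
    Continuous f := by
  apply continuous_of_continuousAt_zero f
  rw [ContinuousAt, map_zero, Metric.tendsto_nhds]
  intro ε hε
  obtain ⟨i, x0, hx0⟩ := nonempty_interior_of_iUnion_of_closed
    (f := fun i => {x | ‖f x - d i‖ ≤ ε / 3}) (fun i => hf _ _ (by positivity)) (by
      ext x
      simp only [Set.mem_iUnion, Set.mem_ofPred_eq, Set.mem_univ, iff_true]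
      exact hd _ _ (by positivity))
  have h0 : ‖f x0 - d i‖ ≤ ε / 3 := interior_subset (s := {x | ‖f x - d i‖ ≤ ε / 3}) hx0
  rw [mem_interior_iff_mem_nhds] at hx0
  have hc : ContinuousAt (fun z : G => x0 + z) 0 := by fun_prop
  have hx1 : {x | ‖f x - d i‖ ≤ ε / 3} ∈ 𝓝 (x0 + 0) := by simpa using hx0
  filter_upwards [hc hx1] with z hz
  have hz' : ‖f (x0 + z) - d i‖ ≤ ε / 3 := hz
  rw [dist_zero_right]
  have : f z = (f (x0 + z) - d i) - (f x0 - d i) := by rw [map_add]; abel
  rw [this]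
  calc _ ≤ ‖f (x0 + z) - d i‖ + ‖f x0 - d i‖ := norm_sub_le _ _
    _ < ε := by linarith

abbrev L : Type := lp (fun _ : ℕ => ℝ) 1

/-- Summable real sequences whose `n`-th term is an integer multiple of `2 ^ (-n)`. -/
def E : AddSubgroup L where
  carrier := {x | ∀ n, ∃ k : ℤ, (k : ℝ) = 2 ^ n * x n}
  zero_mem' := fun n => ⟨0, by simp⟩
  add_mem' := by
    intro a b ha hb n
    obtain ⟨k, hk⟩ := ha n
    obtain ⟨l, hl⟩ := hb n
    exact ⟨k + l, by rw [lp.coeFn_add, Pi.add_apply, Int.cast_add, hk, hl]; ring⟩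
  neg_mem' := by
    intro a ha n
    obtain ⟨k, hk⟩ := ha n
    exact ⟨-k, by rw [lp.coeFn_neg, Pi.neg_apply, Int.cast_neg, hk]; ring⟩

theorem cont_eval (n : ℕ) : Continuous (fun x : L => x n) :=
  (lp.lipschitzWith_one_eval 1 n).continuous

theorem E_closed : IsClosed (E : Set L) := by
  have : (E : Set L) = ⋂ n, (fun x : L => 2 ^ n * x n) ⁻¹' Set.range (fun k : ℤ => (k : ℝ)) := by
    ext x
    simp only [Set.mem_iInter, Set.mem_preimage, Set.mem_range]
    rfl
  rw [this]
  refine isClosed_iInter (fun n => IsClosed.preimage ?_ ?_)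
  · exact continuous_const.mul (cont_eval n)
  · exact Int.isClosedEmbedding_coe_real.isClosed_range

instance : CompleteSpace E := E_closed.completeSpace_coe

/-- The integer coordinates. -/
noncomputable def co (n : ℕ) : E →+ ℤ where
  toFun x := (x.2 n).choose
  map_zero' := by
    simp
  map_add' x y := by
    have h1 := (x.2 n).choose_spec
    have h2 := (y.2 n).choose_spec
    have h3 := ((x + y).2 n).choose_spec
    have : (((x + y).2 n).choose : ℝ) = (((x.2 n).choose + (y.2 n).choose : ℤ) : ℝ) := by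
      push_cast
      rw [h1, h2, h3, AddSubgroup.coe_add, lp.coeFn_add, Pi.add_apply]; ring
    exact_mod_cast this

theorem co_spec (n : ℕ) (x : E) : (co n x : ℝ) = 2 ^ n * (x : L) n := (x.2 n).choose_spec

theorem coord_eq (n : ℕ) (x : E) : (x : L) n = (co n x : ℝ) / 2 ^ n := by
  rw [co_spec]; field_simp

theorem norm_le_iff (z : L) (r : ℝ) (hr : 0 ≤ r) :
    ‖z‖ ≤ r ↔ ∀ s : Finset ℕ, ∑ i ∈ s, ‖z i‖ ≤ r := by
  constructor
  · intro h s
    have := lp.sum_rpow_le_norm_rpow (p := 1) (by simp) z s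
    simp only [ENNReal.toReal_one, Real.rpow_one] at this
    linarith
  · intro h
    apply lp.norm_le_of_forall_sum_le (p := 1) (by simp) hr
    intro s
    simpa using h s

/-- basis vectors -/
noncomputable def e (n : ℕ) : E := ⟨lp.single 1 n ((1 / 2 : ℝ) ^ n), by
  intro k
  by_cases h : k = n
  · subst h
    refine ⟨1, ?_⟩
    rw [lp.single_apply_self, ← mul_pow]; norm_num
  · refine ⟨0, ?_⟩
    rw [lp.single_apply_ne _ _ _ h]; simp⟩

theorem zsmul_e (n : ℕ) (k : ℤ) :
    ((k • e n : E) : L) = lp.single 1 n ((k : ℝ) * (1 / 2 : ℝ) ^ n) := by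
  rw [AddSubgroup.coe_zsmul, ← Int.cast_smul_eq_zsmul ℝ, ← smul_eq_mul, lp.single_smul]
  rfl

theorem dense_fin (y : E) (ε : ℝ) (hε : 0 < ε) :
    ∃ i : (Σ s : Finset ℕ, (s → ℤ)), ‖y - ∑ n : i.1, i.2 n • e n‖ ≤ ε := by
  have h := lp.hasSum_single (p := 1) (by simp) (y : L)
  rw [HasSum, SummationFilter.unconditional_filter, Metric.tendsto_atTop] at h
  obtain ⟨s, hs⟩ := h ε hε
  refine ⟨⟨s, fun n => co n y⟩, ?_⟩
  have h1 := hs s le_rfl
  rw [dist_comm, dist_eq_norm] at h1
  have h2 : ((∑ n : s, co n y • e n : E) : L) = ∑ n ∈ s, lp.single 1 n ((y : L) n) := by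
    rw [AddSubgroup.val_finsetSum, ← Finset.sum_coe_sort s]
    apply Finset.sum_congr rfl
    intro n _
    rw [zsmul_e, coord_eq, one_div, inv_pow, div_eq_mul_inv]
  show ‖((y - ∑ n : s, co n y • e n : E) : L)‖ ≤ ε
  rw [AddSubgroup.coe_sub, h2]
  exact h1.le

theorem endo_cont (f : E →+ E) : Continuous f := by
  apply baire_cont (fun i : (Σ s : Finset ℕ, (s → ℤ)) => ∑ n : i.1, i.2 n • e n) dense_fin f
  intro z r hr
  have : {x | ‖f x - z‖ ≤ r} =
      ⋂ s : Finset ℕ, {x | ∑ i ∈ s, ‖(co i (f x) : ℝ) / 2 ^ i - (z : L) i‖ ≤ r} := by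
    ext x
    simp only [Set.mem_ofPred_eq, Set.mem_iInter]
    have h : ‖f x - z‖ = ‖((f x : L) - (z : L))‖ := rfl
    rw [h, norm_le_iff _ _ hr]
    simp only [lp.coeFn_sub, Pi.sub_apply, coord_eq _ (f x)]
  rw [this]
  refine isClosed_iInter (fun s => isClosed_le ?_ continuous_const)
  refine continuous_finsetSum _ (fun i _ => ?_)
  have h1 : Continuous (fun x => co i (f x)) := dudley ((co i).comp f)
  have h2 : Continuous (fun x => (co i (f x) : ℝ)) := (continuous_of_discreteTopology (f := fun k : ℤ => (k : ℝ))).comp h1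
  fun_prop

theorem norm_nsmul_e (n j : ℕ) : ‖(j • e n : E)‖ = (j : ℝ) * (1 / 2 : ℝ) ^ n := by
  have h : ‖(j • e n : E)‖ = ‖(((j : ℤ) • e n : E) : L)‖ := by rw [natCast_zsmul]; rfl
  rw [h, zsmul_e, lp.norm_single (by simp)]
  rw [Real.norm_of_nonneg (by positivity)]; simp

theorem no_clopen (U : Set E) (hU : IsClopen U) (h0 : (0 : E) ∈ U) (hb : U ⊆ ball 0 1) :
    False := by
  classical
  have step : ∀ (n : ℕ) (x : E), x ∈ U → ∃ j : ℕ, x + j • e n ∈ U ∧ x + j • e n + e n ∉ U := by
    intro n x hx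
    by_contra hcon
    push Not at hcon
    have hall : ∀ j : ℕ, x + j • e n ∈ U := by
      intro j
      induction j with
      | zero => simpa using hx
      | succ j ih => rw [succ_nsmul, ← add_assoc]; exact hcon j ih
    have h1 := hb (hall (2 * 2 ^ n))
    have h2 := hb hx
    rw [mem_ball_zero_iff] at h1 h2
    have h3 : ‖((2 * 2 ^ n) • e n : E)‖ ≤ ‖x + (2 * 2 ^ n) • e n‖ + ‖x‖ := by
      have : ((2 * 2 ^ n) • e n : E) = (x + (2 * 2 ^ n) • e n) - x := by abel
      conv_lhs => rw [this]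
      exact norm_sub_le _ _
    rw [norm_nsmul_e] at h3
    have h4 : ((2 * 2 ^ n : ℕ) : ℝ) * (1 / 2 : ℝ) ^ n = 2 := by
      push_cast; rw [mul_assoc, ← mul_pow]; norm_num
    linarith
  choose! J hJ1 hJ2 using step
  let x : ℕ → E := fun n => Nat.rec (motive := fun _ => E) 0 (fun k xk => xk + J k xk • e k) n
  let j : ℕ → ℕ := fun k => J k (x k)
  have hx : ∀ k, x (k + 1) = x k + j k • e k := fun k => rfl
  have hxU : ∀ k, x k ∈ U := by
    intro k
    induction k with
    | zero => exact h0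
    | succ k ih => exact hJ1 k _ ih
  have hxs : ∀ n, x n = ∑ k ∈ Finset.range n, j k • e k := by
    intro n
    induction n with
    | zero => rfl
    | succ n ih => rw [hx, Finset.sum_range_succ, ← ih]
  have hbd : ∀ n, ∑ k ∈ Finset.range n, ‖(j k • e k : E)‖ ≤ 1 := by
    intro n
    have h1 := hb (hxU n)
    rw [mem_ball_zero_iff] at h1
    have h2 : ((x n : E) : L) =
        ∑ k ∈ Finset.range n, lp.single 1 k ((j k : ℝ) * (1 / 2 : ℝ) ^ k) := by
      rw [hxs, AddSubgroup.val_finsetSum]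
      apply Finset.sum_congr rfl
      intro k _
      rw [← natCast_zsmul, zsmul_e]; simp
    have h3 := lp.norm_sum_single (p := 1) (E := fun _ : ℕ => ℝ) (by simp)
      (fun k => (j k : ℝ) * (1 / 2 : ℝ) ^ k) (Finset.range n)
    simp only [ENNReal.toReal_one, Real.rpow_one] at h3
    rw [← h2] at h3
    have h4 : ‖x n‖ = ‖((x n : E) : L)‖ := rfl
    have h5 : ∑ k ∈ Finset.range n, ‖(j k • e k : E)‖ =
        ∑ k ∈ Finset.range n, ‖(j k : ℝ) * (1 / 2 : ℝ) ^ k‖ := by
      apply Finset.sum_congr rfl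
      intro k _
      rw [norm_nsmul_e, Real.norm_of_nonneg (by positivity)]
    linarith
  have hsum : Summable (fun k => (j k • e k : E)) :=
    Summable.of_norm (summable_of_sum_range_le (fun _ => norm_nonneg _) hbd)
  have hlim : Tendsto x atTop (𝓝 (∑' k, (j k • e k : E))) := by
    have := hsum.hasSum.tendsto_sum_nat
    exact this.congr (fun n => (hxs n).symm)
  have he : Tendsto e atTop (𝓝 0) := by
    rw [tendsto_zero_iff_norm_tendsto_zero]
    have : ∀ n, ‖e n‖ = (1 / 2 : ℝ) ^ n := by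
      intro n
      have := norm_nsmul_e n 1
      simpa using this
    simp only [this]
    exact tendsto_pow_atTop_nhds_zero_of_lt_one (by norm_num) (by norm_num)
  have hlim2 : Tendsto (fun n => x (n + 1) + e n) atTop (𝓝 (∑' k, (j k • e k : E))) := by
    have := (hlim.comp (tendsto_add_atTop_nat 1)).add he
    simpa using this
  have h1 : (∑' k, (j k • e k : E)) ∈ U :=
    hU.isClosed.mem_of_tendsto hlim (Eventually.of_forall hxU)
  have h2 : (∑' k, (j k • e k : E)) ∈ Uᶜ :=
    hU.compl.isClosed.mem_of_tendsto hlim2 (Eventually.of_forall (fun n => hJ2 n _ (hxU n)))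
  exact h2 h1

/-- The initial topology of all homomorphisms to `E`. -/
noncomputable def T (G : Type) [AddCommGroup G] : AddGroupTopology G where
  toTopologicalSpace := ⨅ φ : G →+ E, TopologicalSpace.induced φ inferInstance
  toIsTopologicalAddGroup := topologicalAddGroup_iInf (fun φ => topologicalAddGroup_induced φ)

theorem T_cont (G H : Type) [AddCommGroup G] [AddCommGroup H] (f : G →+ H) :
    @Continuous G H (T G).toTopologicalSpace (T H).toTopologicalSpace f := by
  show @Continuous G H (⨅ φ : G →+ E, TopologicalSpace.induced φ inferInstance)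
    (⨅ φ : H →+ E, TopologicalSpace.induced φ inferInstance) f
  rw [continuous_iInf_rng]
  intro φ
  rw [continuous_induced_rng]
  have h : @Continuous G E (TopologicalSpace.induced (φ.comp f) inferInstance) _ (φ.comp f) :=
    continuous_induced_dom
  exact continuous_iInf_dom (i := φ.comp f) h

theorem T_eq : (T E).toTopologicalSpace = (inferInstance : TopologicalSpace E) := by
  show (⨅ φ : E →+ E, TopologicalSpace.induced φ inferInstance) = _
  apply le_antisymm
  · refine (iInf_le _ (AddMonoidHom.id E)).trans ?_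
    exact le_of_eq induced_id
  · exact le_iInf (fun φ => continuous_iff_le_induced.1 (endo_cont φ))

instance : Infinite E := by
  apply Infinite.of_injective (fun j : ℕ => (j • e 0 : E))
  intro a b h
  have := congrArg norm h
  simp only [norm_nsmul_e] at this
  simpa using this

theorem main :
    ¬ (∀ T : ∀ (G : Type) [AddCommGroup G], AddGroupTopology G,
      (∀ (G H : Type) [AddCommGroup G] [AddCommGroup H] (f : G →+ H),
        @Continuous G H (T G).toTopologicalSpace (T H).toTopologicalSpace f) →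
      ∀ (G : Type) [AddCommGroup G], Infinite G →
        @T2Space G (T G).toTopologicalSpace →
        ∃ B : Set (Set G),
          @TopologicalSpace.IsTopologicalBasis G (T G).toTopologicalSpace B ∧
          ∀ s ∈ B, @IsClopen G (T G).toTopologicalSpace s) := by
  intro h
  have h1 := h T T_cont E inferInstance (by rw [T_eq]; infer_instance)
  rw [T_eq] at h1
  obtain ⟨B, hB, hcl⟩ := h1
  obtain ⟨U, hUB, h0, hsub⟩ := hB.exists_subset_of_mem_open
    (mem_ball_self (one_pos : (0 : ℝ) < 1) : (0 : E) ∈ ball 0 1) isOpen_ball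
  exact no_clopen U (hcl U hUB) h0 hsub

end Pool.Agent.H494Z.Erdos
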