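import Mathlib
import Pool.Agent.Helper75.GS.P_los

set_option autoImplicit false

namespace Pool.Agent.H494Z.Functorial

open Topology Cardinal

/-- The initial topology of all homomorphisms to the discrete group of integers. -/
@[reducible] def T (G : Type) [AddCommGroup G] : TopologicalSpace G :=
  ⨅ φ : G →+ ℤ, TopologicalSpace.induced φ inferInstance

theorem T_group (G : Type) [AddCommGroup G] : @IsTopologicalAddGroup G (T G) _ :=
  topologicalAddGroup_iInf (fun φ => topologicalAddGroup_induced φ)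

theorem T_cont (G H : Type) [AddCommGroup G] [AddCommGroup H] (f : G →+ H) :
    @Continuous G H (T G) (T H) f := by
  rw [continuous_iInf_rng]
  intro φ
  rw [continuous_induced_rng]
  have h : @Continuous G ℤ (TopologicalSpace.induced (φ.comp f) inferInstance) _ (φ.comp f) :=
    continuous_induced_dom
  exact continuous_iInf_dom (i := φ.comp f) h

abbrev I : Type := ℕ → Bool
abbrev G0 : Type := I → ℤ

theorem hom_cont (φ : G0 →+ ℤ) : Continuous φ := by
  classical
  obtain ⟨F, hF⟩ := Pool.Agent.Helper75.GS.los I id Function.injective_id φ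
  apply continuous_of_continuousAt_zero φ
  rw [ContinuousAt, map_zero, nhds_discrete ℤ, Filter.tendsto_pure]
  have : ∀ᶠ f in 𝓝 (0 : G0), ∀ α ∈ F, f α = 0 := by
    rw [Filter.eventually_all_finset]
    intro α _
    have hc : ContinuousAt (fun f : G0 => f α) 0 := (continuous_apply α).continuousAt
    rw [ContinuousAt, nhds_discrete ℤ, Filter.tendsto_pure] at hc
    exact hc
  exact this.mono hF

theorem T_eq : T G0 = Pi.topologicalSpace := by
  apply le_antisymm
  · rw [Pi.topologicalSpace]
    refine le_iInf (fun α => ?_)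
    exact iInf_le (fun φ : G0 →+ ℤ => TopologicalSpace.induced φ inferInstance)
      (Pi.evalAddMonoidHom (fun _ : I => ℤ) α)
  · refine le_iInf (fun φ => ?_)
    exact continuous_iff_le_induced.1 (hom_cont φ)

/-- functions depending on finitely many coordinates -/
def loc (p : Σ n : ℕ, ((Fin n → Bool) → ℤ)) : G0 := fun t => p.2 (fun i => t i)

theorem sep (F : Finset I) : ∃ n : ℕ, ∀ s ∈ F, ∀ t ∈ F,
    (fun i : Fin n => s i) = (fun i : Fin n => t i) → s = t := by
  classical
  have h : ∀ p : I × I, ∃ m : ℕ, p.1 m = p.2 m → p.1 = p.2 := by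
    intro p
    by_cases hp : p.1 = p.2
    · exact ⟨0, fun _ => hp⟩
    · obtain ⟨m, hm⟩ := Function.ne_iff.1 hp
      exact ⟨m, fun h => absurd h hm⟩
  choose m hm using h
  refine ⟨(F ×ˢ F).sup m + 1, fun s hs t ht hst => ?_⟩
  apply hm (s, t)
  have hle : m (s, t) ≤ (F ×ˢ F).sup m := Finset.le_sup (Finset.mem_product.2 ⟨hs, ht⟩)
  exact congrFun hst ⟨m (s, t), by omega⟩

theorem dense_loc : Dense (Set.range loc) := by
  classical
  intro x
  rw [mem_closure_iff_nhds]
  intro U hU
  rw [nhds_pi, Filter.mem_pi'] at hU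
  obtain ⟨F, t, ht, hsub⟩ := hU
  obtain ⟨n, hn⟩ := sep F
  let g : (Fin n → Bool) → ℤ := fun s =>
    if h : ∃ a ∈ F, (fun i : Fin n => a i) = s then x h.choose else 0
  refine ⟨loc ⟨n, g⟩, hsub ?_, ⟨_, rfl⟩⟩
  intro a ha
  have hex : ∃ b ∈ F, (fun i : Fin n => b i) = (fun i : Fin n => a i) := ⟨a, ha, rfl⟩
  have : loc ⟨n, g⟩ a = x a := by
    show g (fun i : Fin n => a i) = x a
    simp only [g]
    rw [dif_pos hex, hn _ hex.choose_spec.1 a ha hex.choose_spec.2]
  rw [this]
  exact mem_of_mem_nhds (ht a)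

theorem card_lt : (2 : Cardinal) ^ Cardinal.mk ↥(Set.range loc) < Cardinal.mk G0 := by
  have h1 : Cardinal.mk ↥(Set.range loc) ≤ ℵ₀ :=
    Cardinal.mk_le_aleph0_iff.2 (Set.countable_range loc).to_subtype
  have h2 : (2 : Cardinal) ^ Cardinal.mk ↥(Set.range loc) ≤ 2 ^ ℵ₀ :=
    Cardinal.power_le_power_left two_ne_zero h1
  have h3 : Cardinal.mk I = 2 ^ ℵ₀ := by simp [I]
  have h4 : (2 : Cardinal) ^ Cardinal.mk I ≤ Cardinal.mk G0 := by
    have : Cardinal.mk G0 = Cardinal.mk ℤ ^ Cardinal.mk I := by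
      simp only [G0]; rw [Cardinal.power_def]
    rw [this]
    apply Cardinal.power_le_power_right
    rw [Cardinal.mk_int]
    exact (Cardinal.natCast_lt_aleph0 (n := 2)).le
  calc _ ≤ (2 : Cardinal) ^ ℵ₀ := h2
    _ = Cardinal.mk I := h3.symm
    _ < 2 ^ Cardinal.mk I := Cardinal.cantor _
    _ ≤ _ := h4

theorem main :
    ∃ T : (G : Type) → [AddCommGroup G] → TopologicalSpace G,
      (∀ (G : Type) [AddCommGroup G], @IsTopologicalAddGroup G (T G) _) ∧
      (∀ (G H : Type) [AddCommGroup G] [AddCommGroup H] (f : G →+ H),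
          @Continuous G H (T G) (T H) f) ∧
      ∃ (G : Type) (_ : AddCommGroup G), Infinite G ∧ @T2Space G (T G) ∧
        ∃ D : Set G, @Dense G (T G) D ∧
          (2 : Cardinal) ^ Cardinal.mk ↥D < Cardinal.mk G := by
  refine ⟨T, T_group, T_cont, G0, inferInstance, inferInstance, ?_, Set.range loc, ?_, card_lt⟩
  · rw [T_eq]; infer_instance
  · rw [T_eq]; exact dense_loc

end Pool.Agent.H494Z.Functorial
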