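import Pool.Agent.Helper915.Walks
import Pool.Agent.H494Z.CoverDefs

set_option autoImplicit false

namespace Pool.Agent.H494Z.Tietze

open Finset Pool.Agent.Helper915.Walks Pool.Agent.H494Z.Cover

/-- The 18 edges of the Tietze graph. -/
def eL : List (Sym2 (Fin 12)) :=
  [s(10, 1), s(1, 2), s(2, 3), s(3, 4), s(4, 0), s(11, 5), s(1, 6), s(2, 7), s(3, 8), s(4, 9), s(5, 7), s(6, 8), s(7, 9), s(8, 5), s(9, 6), s(0, 10), s(0, 11), s(10, 11)]

/-- The Tietze graph. -/
def G : SimpleGraph (Fin 12) where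
  Adj x y := s(x, y) ∈ eL
  symm := ⟨fun x y h => by rw [Sym2.eq_swap]; exact h⟩
  loopless := ⟨fun x => by revert x; decide +kernel⟩

instance : DecidableRel G.Adj := fun x y => by unfold G; infer_instance

lemma mem_edgeSet_iff (e : Sym2 (Fin 12)) : e ∈ G.edgeSet ↔ e ∈ eL := by
  induction e with
  | _ x y => exact Iff.rfl

lemma eL_nodup : eL.Nodup := by decide +kernel

def incL : List (List (Sym2 (Fin 12))) :=
  [[s(4, 0), s(0, 10), s(0, 11)],
   [s(10, 1), s(1, 2), s(1, 6)],
   [s(1, 2), s(2, 3), s(2, 7)],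
   [s(2, 3), s(3, 4), s(3, 8)],
   [s(3, 4), s(4, 0), s(4, 9)],
   [s(11, 5), s(5, 7), s(8, 5)],
   [s(1, 6), s(6, 8), s(9, 6)],
   [s(2, 7), s(5, 7), s(7, 9)],
   [s(3, 8), s(6, 8), s(8, 5)],
   [s(4, 9), s(7, 9), s(9, 6)],
   [s(10, 1), s(0, 10), s(10, 11)],
   [s(11, 5), s(0, 11), s(10, 11)]]

def inc (x : Fin 12) : List (Sym2 (Fin 12)) := incL.getD x.1 []

lemma inc_0 : inc 0 = [s(4, 0), s(0, 10), s(0, 11)] := rfl
lemma inc_1 : inc 1 = [s(10, 1), s(1, 2), s(1, 6)] := rfl
lemma inc_2 : inc 2 = [s(1, 2), s(2, 3), s(2, 7)] := rfl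
lemma inc_3 : inc 3 = [s(2, 3), s(3, 4), s(3, 8)] := rfl
lemma inc_4 : inc 4 = [s(3, 4), s(4, 0), s(4, 9)] := rfl
lemma inc_5 : inc 5 = [s(11, 5), s(5, 7), s(8, 5)] := rfl
lemma inc_6 : inc 6 = [s(1, 6), s(6, 8), s(9, 6)] := rfl
lemma inc_7 : inc 7 = [s(2, 7), s(5, 7), s(7, 9)] := rfl
lemma inc_8 : inc 8 = [s(3, 8), s(6, 8), s(8, 5)] := rfl
lemma inc_9 : inc 9 = [s(4, 9), s(7, 9), s(9, 6)] := rfl
lemma inc_10 : inc 10 = [s(10, 1), s(0, 10), s(10, 11)] := rfl
lemma inc_11 : inc 11 = [s(11, 5), s(0, 11), s(10, 11)] := rfl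

lemma inc_nodup : ∀ x, (inc x).Nodup := by decide +kernel

lemma inc_mem : ∀ x, ∀ e ∈ eL, x ∈ e → e ∈ inc x := by decide +kernel

lemma inc_mem' : ∀ x, ∀ e ∈ inc x, x ∈ e := by decide +kernel

def tab : List (List ℕ) :=
  [[36430469603599, 57320954532095, 36430738046735, 36430469656847, 36430470390031, 36430482186511, 36503718928655, 36433959264527, 36486304178447, 37323822801167, 87008004481295, 265128888181007],
   [57320954532095, 18842879337456, 18842879340528, 18842879390960, 18980335994096, 18842892968944, 18843080664048, 18846100562928, 18894418945008, 19736249312240, 34236042126320, 265133486056432],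
   [36430738046735, 18842879340528, 18842879340320, 18842879393568, 18980319219488, 18842892971808, 18843080666912, 18846100565792, 18894418947872, 19736232537888, 34236042129216, 265133486059296],
   [36430469656847, 18842879390960, 18842879393568, 18842879390496, 18980319261472, 18847187989280, 18843080717088, 18846100615968, 18894418998048, 19736232588064, 34236042179648, 265137781076768],
   [36430470390031, 18980335994096, 18980319219488, 18980319261472, 18980319216416, 18984896250656, 18980520543008, 18983540441888, 19031858823968, 19736233460512, 34373498782800, 265275490386720],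
   [36430482186511, 18842892968944, 18842892971808, 18847187989280, 18984896250656, 18842892968736, 18843094295328, 18846114194208, 18894432576288, 19736514601760, 34236055757632, 265133497590560],
   [36503718928655, 18843080664048, 18843080666912, 18843080717088, 18980520543008, 18843094295328, 18843080663840, 18846301889312, 18894620271392, 19736433861408, 34236243452736, 265133687382816],
   [36433959264527, 18846100562928, 18846100565792, 18846100615968, 18983540441888, 18846114194208, 18846301889312, 18846100562720, 18897640170272, 19739453760288, 34239263351616, 265136707281696],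
   [36486304178447, 18894418945008, 18894418947872, 18894418998048, 19031858823968, 18894432576288, 18894620271392, 18897640170272, 18894418944800, 19787772142368, 34287581733696, 265185025663776],
   [37323822801167, 19736249312240, 19736232537888, 19736232588064, 19736233460512, 19736514601760, 19736433861408, 19739453760288, 19787772142368, 19736232534816, 35129412100928, 266027107689248],
   [87008004481295, 34236042126320, 34236042129216, 34236042179648, 34373498782800, 34236055757632, 34236243452736, 34239263351616, 34287581733696, 35129412100928, 34236042126144, 280526648845120],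
   [265128888181007, 265133486056432, 265133486059296, 265137781076768, 265275490386720, 265133497590560, 265133687382816, 265136707281696, 265185025663776, 266027107689248, 280526648845120, 265133486056224]]

def rk (a b v : Fin 12) : ℕ := ((tab.getD a.1 []).getD b.1 0) / 16 ^ v.1 % 16

def rk0 (v : Fin 12) : ℕ := 18842879337248 / 16 ^ v.1 % 16

def rt (a b : Fin 12) : Fin 12 :=
  if a ≠ 0 ∧ b ≠ 0 then 0 else if a ≠ 1 ∧ b ≠ 1 then 1 else 2

lemma rt_check : ∀ a b : Fin 12, rt a b ≠ a ∧ rt a b ≠ b := by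
  decide +kernel

lemma rk_check1 : ∀ a b : Fin 12, ∀ v : Fin 12, v ≠ a ∧ v ≠ b → rk a b v = 0 →
    v = rt a b := by
  decide +kernel

lemma rk_check2 : ∀ a b : Fin 12, ∀ v : Fin 12, v ≠ a ∧ v ≠ b → rk a b v ≠ 0 →
      ∃ u, G.Adj v u ∧ rk a b u < rk a b v ∧ (u ≠ a ∧ u ≠ b) := by
  decide +kernel

lemma rk0_check1 : ∀ v : Fin 12, rk0 v = 0 → v = 0 := by
  decide +kernel

lemma rk0_check2 : ∀ v : Fin 12, rk0 v ≠ 0 → ∃ u, G.Adj v u ∧ rk0 u < rk0 v := by
  decide +kernel

lemma G_conn_pair (a b : Fin 12) :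
    (G.induce ((↑({a, b} : Finset (Fin 12)) : Set (Fin 12))ᶜ)).Connected := by
  apply connected_of_rank G {a, b} (rk a b) (rt a b) (by simpa using rt_check a b)
  · intro v hv h
    exact rk_check1 a b v (by simpa using hv) h
  · intro v hv h
    obtain ⟨u, hm, h2, hu⟩ := rk_check2 a b v (by simpa using hv) h
    exact ⟨u, by simpa using hu, hm, h2⟩

lemma G_three_connected : ThreeConnected G := by
  refine ⟨by simp, ?_⟩
  intro S hS
  have hcases : S = ∅ ∨ ∃ a b : Fin 12, S = {a, b} := by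
    rcases Nat.lt_or_ge S.card 1 with h | h
    · left
      exact Finset.card_eq_zero.1 (by omega)
    · rcases Nat.lt_or_ge S.card 2 with h' | h'
      · obtain ⟨a, ha⟩ := Finset.card_eq_one.1 (show S.card = 1 by omega)
        exact Or.inr ⟨a, a, by simp [ha]⟩
      · obtain ⟨a, b, _, hab⟩ := Finset.card_eq_two.1 (show S.card = 2 by omega)
        exact Or.inr ⟨a, b, hab⟩
  rcases hcases with rfl | ⟨a, b, rfl⟩
  · apply connected_of_rank G ∅ rk0 0 (by simp)
    · intro v _ hv
      exact rk0_check1 v hv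
    · intro v _ hv
      obtain ⟨u, hm, hu⟩ := rk0_check2 v hv
      exact ⟨u, by simp, hm, hu⟩
  · exact G_conn_pair a b

def c0 : G.Walk 0 0 :=
  .cons (by decide : G.Adj 0 4) <|
  .cons (by decide : G.Adj 4 3) <|
  .cons (by decide : G.Adj 3 2) <|
  .cons (by decide : G.Adj 2 1) <|
  .cons (by decide : G.Adj 1 10) <|
  .cons (by decide : G.Adj 10 0) .nil

lemma c0_cycle : c0.IsCycle := by
  rw [SimpleGraph.Walk.isCycle_def]
  refine ⟨?_, ?_, ?_⟩
  · rw [SimpleGraph.Walk.isTrail_def]; decide +kernel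
  · simp [c0]
  · decide +kernel

def c1 : G.Walk 1 1 :=
  .cons (by decide : G.Adj 1 6) <|
  .cons (by decide : G.Adj 6 8) <|
  .cons (by decide : G.Adj 8 5) <|
  .cons (by decide : G.Adj 5 11) <|
  .cons (by decide : G.Adj 11 10) <|
  .cons (by decide : G.Adj 10 1) .nil

lemma c1_cycle : c1.IsCycle := by
  rw [SimpleGraph.Walk.isCycle_def]
  refine ⟨?_, ?_, ?_⟩
  · rw [SimpleGraph.Walk.isTrail_def]; decide +kernel
  · simp [c1]
  · decide +kernel

def c2 : G.Walk 2 2 :=
  .cons (by decide : G.Adj 2 3) <|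
  .cons (by decide : G.Adj 3 8) <|
  .cons (by decide : G.Adj 8 6) <|
  .cons (by decide : G.Adj 6 9) <|
  .cons (by decide : G.Adj 9 7) <|
  .cons (by decide : G.Adj 7 2) .nil

lemma c2_cycle : c2.IsCycle := by
  rw [SimpleGraph.Walk.isCycle_def]
  refine ⟨?_, ?_, ?_⟩
  · rw [SimpleGraph.Walk.isTrail_def]; decide +kernel
  · simp [c2]
  · decide +kernel

def c3 : G.Walk 0 0 :=
  .cons (by decide : G.Adj 0 4) <|
  .cons (by decide : G.Adj 4 9) <|
  .cons (by decide : G.Adj 9 7) <|
  .cons (by decide : G.Adj 7 5) <|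
  .cons (by decide : G.Adj 5 11) <|
  .cons (by decide : G.Adj 11 0) .nil

lemma c3_cycle : c3.IsCycle := by
  rw [SimpleGraph.Walk.isCycle_def]
  refine ⟨?_, ?_, ?_⟩
  · rw [SimpleGraph.Walk.isTrail_def]; decide +kernel
  · simp [c3]
  · decide +kernel

def tour : G.Walk 0 0 :=
  .cons (by decide : G.Adj 0 11) <|
  .cons (by decide : G.Adj 11 10) <|
  .cons (by decide : G.Adj 10 0) <|
  .cons (by decide : G.Adj 0 4) <|
  .cons (by decide : G.Adj 4 9) <|
  .cons (by decide : G.Adj 9 7) <|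
  .cons (by decide : G.Adj 7 9) <|
  .cons (by decide : G.Adj 9 6) <|
  .cons (by decide : G.Adj 6 8) <|
  .cons (by decide : G.Adj 8 5) <|
  .cons (by decide : G.Adj 5 11) <|
  .cons (by decide : G.Adj 11 5) <|
  .cons (by decide : G.Adj 5 7) <|
  .cons (by decide : G.Adj 7 2) <|
  .cons (by decide : G.Adj 2 3) <|
  .cons (by decide : G.Adj 3 8) <|
  .cons (by decide : G.Adj 8 6) <|
  .cons (by decide : G.Adj 6 1) <|
  .cons (by decide : G.Adj 1 10) <|
  .cons (by decide : G.Adj 10 1) <|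
  .cons (by decide : G.Adj 1 2) <|
  .cons (by decide : G.Adj 2 3) <|
  .cons (by decide : G.Adj 3 4) <|
  .cons (by decide : G.Adj 4 0) .nil

def fam : List (Σ u : Fin 12, G.Walk u u) := [⟨0, c0⟩, ⟨1, c1⟩, ⟨2, c2⟩, ⟨0, c3⟩]

lemma fam_cycles : ∀ c ∈ fam, c.2.IsCycle := by
  intro c hc
  simp only [fam, List.mem_cons, List.not_mem_nil, or_false] at hc
  rcases hc with rfl | rfl | rfl | rfl
  exacts [c0_cycle, c1_cycle, c2_cycle, c3_cycle]

lemma fam_covers : ∀ e ∈ G.edgeSet, ∃ c ∈ fam, e ∈ c.2.edges := by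
  intro e he
  rw [mem_edgeSet_iff] at he
  have : ∀ e ∈ eL, e ∈ c0.edges ∨ e ∈ c1.edges ∨ e ∈ c2.edges ∨ e ∈ c3.edges := by
    decide +kernel
  simp only [fam, List.mem_cons, List.not_mem_nil, or_false, exists_eq_or_imp, exists_eq_left]
  exact this e he

lemma tour_covers : ∀ e ∈ G.edgeSet, e ∈ tour.edges := by
  intro e he
  rw [mem_edgeSet_iff] at he
  revert e
  decide +kernel

lemma lower (f : Sym2 (Fin 12) → ℕ) (h1 : ∀ e ∈ eL, 1 ≤ f e)
    (h2 : ∀ x, ((inc x).map f).sum % 2 = 0) : 24 ≤ (eL.map f).sum := by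
  have key : ∀ a b c : ℕ, 1 ≤ a → 1 ≤ b → 1 ≤ c → (a + (b + (c + 0))) % 2 = 0 → 4 ≤ a + b + c := by
    intro a b c _ _ _ _; omega
  have p0 := key _ _ _ (h1 s(4, 0) (by decide +kernel)) (h1 s(0, 10) (by decide +kernel))
    (h1 s(0, 11) (by decide +kernel)) (h2 0)
  have p1 := key _ _ _ (h1 s(10, 1) (by decide +kernel)) (h1 s(1, 2) (by decide +kernel))
    (h1 s(1, 6) (by decide +kernel)) (h2 1)
  have p2 := key _ _ _ (h1 s(1, 2) (by decide +kernel)) (h1 s(2, 3) (by decide +kernel))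
    (h1 s(2, 7) (by decide +kernel)) (h2 2)
  have p3 := key _ _ _ (h1 s(2, 3) (by decide +kernel)) (h1 s(3, 4) (by decide +kernel))
    (h1 s(3, 8) (by decide +kernel)) (h2 3)
  have p4 := key _ _ _ (h1 s(3, 4) (by decide +kernel)) (h1 s(4, 0) (by decide +kernel))
    (h1 s(4, 9) (by decide +kernel)) (h2 4)
  have p5 := key _ _ _ (h1 s(11, 5) (by decide +kernel)) (h1 s(5, 7) (by decide +kernel))
    (h1 s(8, 5) (by decide +kernel)) (h2 5)
  have p6 := key _ _ _ (h1 s(1, 6) (by decide +kernel)) (h1 s(6, 8) (by decide +kernel))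
    (h1 s(9, 6) (by decide +kernel)) (h2 6)
  have p7 := key _ _ _ (h1 s(2, 7) (by decide +kernel)) (h1 s(5, 7) (by decide +kernel))
    (h1 s(7, 9) (by decide +kernel)) (h2 7)
  have p8 := key _ _ _ (h1 s(3, 8) (by decide +kernel)) (h1 s(6, 8) (by decide +kernel))
    (h1 s(8, 5) (by decide +kernel)) (h2 8)
  have p9 := key _ _ _ (h1 s(4, 9) (by decide +kernel)) (h1 s(7, 9) (by decide +kernel))
    (h1 s(9, 6) (by decide +kernel)) (h2 9)
  have p10 := key _ _ _ (h1 s(10, 1) (by decide +kernel)) (h1 s(0, 10) (by decide +kernel))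
    (h1 s(10, 11) (by decide +kernel)) (h2 10)
  have p11 := key _ _ _ (h1 s(11, 5) (by decide +kernel)) (h1 s(0, 11) (by decide +kernel))
    (h1 s(10, 11) (by decide +kernel)) (h2 11)
  simp only [eL, List.map_cons, List.map_nil, List.sum_cons, List.sum_nil]
  clear key h1 h2
  omega

lemma scc_eq_cpp : SccEqCpp G := by
  refine ⟨24, ⟨⟨0, tour, tour_covers, rfl⟩, ?_⟩, ⟨⟨fam, fam_cycles, fam_covers, rfl⟩, ?_⟩⟩
  · rintro n ⟨u, p, hp, rfl⟩
    rw [← SimpleGraph.Walk.length_edges, length_eq_sum eL eL_nodup p.edges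
      (fun e he => (mem_edgeSet_iff e).1 (SimpleGraph.Walk.edges_subset_edgeSet p he))]
    apply lower
    · intro e he
      exact List.count_pos_iff.2 (hp e ((mem_edgeSet_iff e).2 he))
    · intro x
      exact inc_parity p x (inc x) (inc_nodup x) (inc_mem' x)
        (fun e he hx => inc_mem x e ((mem_edgeSet_iff e).1 he) hx)
  · rintro n ⟨F, hF, hcov, rfl⟩
    rw [family_length F hF eL eL_nodup (fun e he => (mem_edgeSet_iff e).1 he)]
    apply lower
    · intro e he
      obtain ⟨c, hc, hec⟩ := hcov e ((mem_edgeSet_iff e).2 he)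
      exact List.countP_pos_iff.2 ⟨c, hc, by simpa using hec⟩
    · intro x
      exact family_parity F hF x (inc x) (inc_nodup x) (inc_mem' x)
        (fun e he hx => inc_mem x e ((mem_edgeSet_iff e).1 he) hx)

/-- weight 2 on a perfect matching, 1 elsewhere -/
def w (e : Sym2 (Fin 12)) : ℕ :=
  if e ∈ ([s(11, 5), s(1, 6), s(2, 7), s(3, 8), s(4, 9), s(0, 10)] : List (Sym2 (Fin 12)))
  then 2 else 1

lemma even_sym {V : Type} [DecidableEq V] (f : V → V → ℕ) (hs : ∀ x y, f x y = f y x)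
    (h0 : ∀ x, f x x = 0) (S : Finset V) : Even (∑ x ∈ S, ∑ y ∈ S, f x y) := by
  induction S using Finset.induction_on with
  | empty => simp
  | insert a S ha ih =>
    rw [Finset.sum_insert ha, Finset.sum_insert ha, h0]
    simp only [Finset.sum_insert ha]
    rw [Finset.sum_add_distrib]
    have : ∑ x ∈ S, f x a = ∑ y ∈ S, f a y := Finset.sum_congr rfl (fun x _ => hs x a)
    rw [this]
    obtain ⟨k, hk⟩ := ih
    exact ⟨∑ y ∈ S, f a y + k, by omega⟩

lemma w_euler : IsEulerianWeight G w := by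
  refine ⟨fun e _ => ?_, fun S => ?_⟩
  · unfold w; split_ifs <;> simp
  · set f : Fin 12 → Fin 12 → ℕ := fun x y => if G.Adj x y then w s(x, y) else 0 with hf
    have hv : ∀ x, ∑ y, f x y = 4 := by decide +kernel
    have h1 := even_sym f (by decide +kernel) (by decide +kernel) S
    have h2 : ∑ x ∈ S, ∑ y ∈ S, f x y + ∑ x ∈ S, ∑ y ∈ Sᶜ, f x y = ∑ x ∈ S, 4 := by
      rw [← Finset.sum_add_distrib]
      apply Finset.sum_congr rfl
      intro x _
      rw [Finset.sum_add_sum_compl, hv]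
    rw [Finset.sum_const, smul_eq_mul] at h2
    obtain ⟨k, hk⟩ := h1
    show Even (∑ x ∈ S, ∑ y ∈ Sᶜ, f x y)
    exact ⟨2 * S.card - k, by omega⟩

lemma no_w_cover : ¬ HasCycleCover G w := by
  rintro ⟨F, hF, hw⟩
  let X : Sym2 (Fin 12) → Finset (Fin F.length) :=
    fun e => univ.filter (fun i : Fin F.length => e ∈ (F.get i).2.edges)
  have hX : ∀ e ∈ eL, (X e).card = w e := by
    intro e he
    rw [← hw e ((mem_edgeSet_iff e).2 he), countP_eq_card (fun c : (Σ u : Fin 12, G.Walk u u) => e ∈ c.2.edges) F]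
  have hp : ∀ (k : Fin F.length) (x : Fin 12),
      ((inc x).map (fun e => if k ∈ X e then 1 else 0)).sum % 2 = 0 := by
    intro k x
    have hc : (F.get k).2.IsCycle := hF _ (List.get_mem F k)
    have := inc_parity (F.get k).2 x (inc x) (inc_nodup x) (inc_mem' x)
      (fun e he hx => inc_mem x e ((mem_edgeSet_iff e).1 he) hx)
    simp only [count_cycle hc] at this
    simpa [X] using this
  have hq : ∀ (k : Fin F.length) (x : Fin 12) (a b c : Sym2 (Fin 12)), inc x = [a, b, c] →
      ((if k ∈ X a then 1 else 0) + (if k ∈ X b then 1 else 0) +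
        (if k ∈ X c then 1 else 0)) % 2 = 0 := by
    intro k x a b c h
    have := hp k x
    rw [h] at this
    simpa [add_assoc] using this
  clear_value X
  refine no_cover (A0 := X s(10, 1)) (A1 := X s(1, 2)) (A2 := X s(2, 3)) (A3 := X s(3, 4))
    (A4 := X s(4, 0)) (T0 := X s(11, 5)) (T1 := X s(1, 6)) (T2 := X s(2, 7)) (T3 := X s(3, 8))
    (T4 := X s(4, 9)) (B0 := X s(5, 7)) (B1 := X s(6, 8)) (B2 := X s(7, 9)) (B3 := X s(8, 5))
    (B4 := X s(9, 6)) ?_ ?_ ?_ ?_ ?_ ?_ ?_ ?_ ?_ ?_ ?_ ?_ ?_ ?_ ?_ ?_ ?_ ?_ ?_ ?_ ?_ ?_ ?_ ?_ ?_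
  iterate 15 (rw [hX _ (by decide +kernel)]; decide +kernel)
  · intro k
    have p0 := hq k 0 _ _ _ inc_0
    have p10 := hq k 10 _ _ _ inc_10
    have p11 := hq k 11 _ _ _ inc_11
    omega
  · exact fun k => hq k 1 _ _ _ inc_1
  · exact fun k => hq k 2 _ _ _ inc_2
  · exact fun k => hq k 3 _ _ _ inc_3
  · exact fun k => hq k 4 _ _ _ inc_4
  · exact Par.p231 (fun k => hq k 5 _ _ _ inc_5)
  · exact Par.p231 (fun k => hq k 6 _ _ _ inc_6)
  · exact Par.p321 (fun k => hq k 7 _ _ _ inc_7)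
  · exact Par.p321 (fun k => hq k 8 _ _ _ inc_8)
  · exact Par.p321 (fun k => hq k 9 _ _ _ inc_9)

theorem main : ThreeConnected G ∧ SccEqCpp G ∧ ¬ CycleCoverProperty G :=
  ⟨G_three_connected, scc_eq_cpp, fun h => no_w_cover (h w w_euler)⟩

end Pool.Agent.H494Z.Tietze
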